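import Pool.Agent.Q117.AP.All

/-!
# MP_5b0a7e_nt: the number of the residue classes with a given profile of almost primes
-/

set_option autoImplicit false

namespace Pool.Agent.Results.MP_5b0a7e_nt.ClassesWithGivenProfile

open Finset
open Pool.Agent.Q117.LF (Ro)

/-- for every prime `p` not dividing `a` there is a translate of `E` without multiples of `p` -/
def Admissible (a : ℕ) (E : Finset ℤ) : Prop := ∀ p : ℕ, p.Prime → ¬ p ∣ a → ∃ r : ℤ, ∀ e ∈ E, ¬ (p : ℤ) ∣ r + e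

/-- the number of the residue classes modulo `p` met by `E` -/
noncomputable def omega (E : Finset ℤ) (p : ℕ) : ℕ := (E.image (fun e : ℤ => e % (p : ℤ))).card

/-- the product of `1 - omega / p` over the primes `p ≤ y` that do not divide `a` -/
noncomputable def dens (y a : ℕ) (E : Finset ℤ) : ℝ := ∏ p ∈ (Icc 1 y).filter (fun p : ℕ => p.Prime ∧ ¬ p ∣ a), (1 - (omega E p : ℝ) / p)

open Classical in
/-- the `1 ≤ b ≤ a` prime to `a` for which among the `b + a s`, `|s| ≤ D`, exactly those with `s ∈ E` have no prime factor `≤ z`, and `b + a e₀` is a product of at most two primes, all `≥ x` -/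
noncomputable def Profile (a : ℕ) (E : Finset ℤ) (e₀ : ℤ) (x z D : ℝ) : Finset ℕ :=
  (Icc 1 a).filter (fun b : ℕ => b.Coprime a ∧ ((b : ℤ) + a * e₀).natAbs.primeFactorsList.length ≤ 2 ∧ (∀ p : ℕ, p.Prime → (p : ℤ) ∣ (b : ℤ) + a * e₀ → x ≤ p) ∧
    ∀ s : ℤ, |(s : ℝ)| ≤ D → (Ro z ((b : ℤ) + a * s) ↔ s ∈ E))

theorem result : ∀ k : ℕ, ∃ t : ℕ, 1 ≤ t ∧ ∃ c : ℝ, 0 < c ∧ ∃ C : ℝ, 0 < C ∧ ∃ ν : ℝ, 0 < ν ∧ ∃ a0 : ℕ, ∀ a : ℕ, a0 ≤ a →
    ∀ E : Finset ℤ, E.card ≤ k → (∀ e ∈ E, |(e : ℝ)| ≤ ν * ((Nat.totient a : ℝ) / a * Real.log a)) → Admissible a E → ∀ e₀ ∈ E,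
      c * (Nat.totient a * dens a a E) ≤ ((Profile a E e₀ ((a : ℝ) ^ (1 / 6 : ℝ)) ((a : ℝ) ^ (1 / (t : ℝ))) (ν * ((Nat.totient a : ℝ) / a * Real.log a))).card : ℝ) ∧
      (({b : ℕ | 1 ≤ b ∧ b ≤ a ∧ ∀ e ∈ E, Ro ((a : ℝ) ^ (1 / (t : ℝ))) ((b : ℤ) + a * e)}.ncard : ℕ) : ℝ) ≤ C * (Nat.totient a * dens a a E) :=
  Pool.Agent.Q117.AP.prfC

end Pool.Agent.Results.MP_5b0a7e_nt.ClassesWithGivenProfile
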