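import Pool.Agent.Q145.LP.Ch
import Pool.Agent.Q145.LP.Eng
import Pool.Agent.Q145.LP.Phi

set_option autoImplicit false
set_option maxHeartbeats 4000000

/-! # The least prime in a fixed residue class: all sizes up to the record occur

For a fixed integer `b ≠ 0` and a modulus `n` coprime to `b` let `p(n, b)` be the least prime `p > |b|` with
`p ≡ b (mod n)`, and let `f(x) = log x (log₂ x)² log₄ x / (log₃ x)²`.

(1) There is `c > 0` such that for every real `H` between a constant and `c f(x)` there are at least `x^(9/10)`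
moduli `n ≤ x` with `p(n, b) = (1 + o(1)) φ(n) H`.

(2) The set of the limit points of `p(n, b) / (φ(n) log n)`, `n → ∞`, is `[0, ∞]`. -/

namespace Pool.Agent.Results.MP_5b0a7e_nt.FixedResidueAllSizes

open Finset Filter
open Pool.Agent.H378R2
open Pool.Agent.Q145.LP

/-- `f(x) = log x (log₂ x)² log₄ x / (log₃ x)²` (iterated natural logarithms). -/
noncomputable def f (x : ℝ) : ℝ :=
  Real.log x * (Real.log (Real.log x)) ^ 2 * Real.log (Real.log (Real.log (Real.log x))) /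
    (Real.log (Real.log (Real.log x))) ^ 2

/-- `p` is the least prime `q > |b|` with `q ≡ b (mod n)`. -/
def LeastPrime (n : ℕ) (b : ℤ) (p : ℕ) : Prop :=
  IsLeast {q : ℕ | q.Prime ∧ |b| < q ∧ (q : ℤ) ≡ b [ZMOD n]} p

theorem f_eq (x : ℝ) : f x = Pool.Agent.H256R2.SC.ff x := rfl

/-- the moduli `x / (log x)² ≤ n ≤ x` coprime to `b` with `|p(n, b) - H φ(n)| ≤ ε H φ(n)` -/
def Moduli (b : ℤ) (ε x H : ℝ) : Set ℕ :=
  {n : ℕ | x / Real.log x ^ 2 ≤ n ∧ (n : ℝ) ≤ x ∧ IsCoprime (n : ℤ) b ∧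
    ∃ p : ℕ, LeastPrime n b p ∧ |(p : ℝ) - H * n.totient| ≤ ε * (H * n.totient)}

theorem ev_small (B : ℝ) (hB : 0 ≤ B) : ∀ᶠ X : ℝ in atTop, X ^ (1 / 1000 : ℝ) + B < X / Real.log X ^ 2 := by
  have t1 := Real.tendsto_log_atTop
  filter_upwards [t1.eventually (ev_pow_exp 2 (1 / 2) 1 (by norm_num)), t1.eventually_ge_atTop (4 * (2 + B)),
    eventually_gt_atTop 0] with X h1 h2 hX
  set t := Real.log X with ht
  have ht0 : 0 < t := by linarith
  have e1 : X = Real.exp t := by rw [ht, Real.exp_log hX]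
  have e2 : X ^ (1 / 1000 : ℝ) = Real.exp (t / 1000) := by
    rw [Real.rpow_def_of_pos hX]
    congr 1
    ring
  have e3 : Real.exp (t / 2) ≤ X / t ^ 2 := by
    rw [le_div_iff₀ (by positivity), e1]
    have h3 : Real.exp t = Real.exp (t / 2) * Real.exp (1 / 2 * t) := by
      rw [← Real.exp_add]
      congr 1
      ring
    rw [h3]
    exact mul_le_mul_of_nonneg_left (by linarith) (Real.exp_pos _).le
  have e4 : Real.exp (t / 1000) * Real.exp (t / 4) ≤ Real.exp (t / 2) := by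
    rw [← Real.exp_add]
    apply Real.exp_le_exp.2
    linarith
  have e5 : 2 + B < Real.exp (t / 4) := by
    have := Real.add_one_le_exp (t / 4)
    linarith
  have e6 : 1 ≤ Real.exp (t / 1000) := Real.one_le_exp (by positivity)
  rw [e2]
  refine lt_of_lt_of_le ?_ e3
  refine lt_of_lt_of_le ?_ e4
  nlinarith

theorem sizes (b : ℤ) (hb : b ≠ 0) : ∃ c : ℝ, 0 < c ∧ ∀ ε : ℝ, 0 < ε → ∃ x₀ : ℝ, ∀ x H : ℝ, x₀ ≤ x → x₀ ≤ H →
    H ≤ c * f x → x ^ (9 / 10 : ℝ) ≤ ((Moduli b ε x H).ncard : ℝ) := by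
  classical
  obtain ⟨A, c₀, hc₀, heng⟩ := eng b hb
  refine ⟨min c₀ 1, lt_min hc₀ one_pos, fun ε hε => ?_⟩
  obtain ⟨ε', hε'⟩ : ∃ ε' : ℝ, ε' = min ε 1 / 2 := ⟨_, rfl⟩
  have hmin := lt_min hε one_pos
  have hε'0 : 0 < ε' := by rw [hε']; linarith
  have hε'1 : ε' < 1 := by rw [hε']; have := min_le_right ε 1; linarith
  have hε'2 : 2 * ε' ≤ ε := by rw [hε']; have := min_le_left ε 1; linarith
  have hl : 0 < Real.log (1 + ε') := Real.log_pos (by linarith)
  obtain ⟨w0, hw0⟩ : ∃ w0 : ℕ, w0 = ⌈8 / Real.log (1 + ε')⌉₊ + 2 * b.natAbs + 2 := ⟨_, rfl⟩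
  have hw0r : 8 / Real.log (1 + ε') ≤ w0 := by
    refine (Nat.le_ceil _).trans ?_
    exact_mod_cast (by omega : ⌈8 / Real.log (1 + ε')⌉₊ ≤ w0)
  have hw0p : (0 : ℝ) < w0 := by exact_mod_cast (by omega : 0 < w0)
  have hw1 : Real.exp (2 * (4 / w0)) ≤ 1 + ε' := by
    rw [← Real.le_log_iff_exp_le (by linarith)]
    rw [div_le_iff₀ hl] at hw0r
    have : 2 * (4 / (w0 : ℝ)) = 8 / w0 := by ring
    rw [this, div_le_iff₀ hw0p]
    linarith
  obtain ⟨y₀, hy₀, hch⟩ := choose2 ε' hε'0 hε'1 w0 c₀ hc₀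
  obtain ⟨X0, hX0⟩ := bvrel_holds A w0
  have t1 := Real.tendsto_log_atTop
  have hbn : (0 : ℝ) ≤ b.natAbs := Nat.cast_nonneg _
  obtain ⟨X1, hX1⟩ := eventually_atTop.1 (((hch.and (heng w0)).and
    ((sum_bound w0 (by omega)).and (Pool.Agent.H312R2.RG.ev_ff 2 two_pos))).and
    ((ev_small (2 * b.natAbs) (by positivity)).and (eventually_ge_atTop (2 * (b.natAbs : ℝ) + 4))))
  refine ⟨max (max X0 X1) (max (2 * y₀) ((b.natAbs : ℝ) / ε')), fun x H hx hH hHc => ?_⟩
  have hxX0 : X0 ≤ x := ((le_max_left _ _).trans (le_max_left _ _)).trans hx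
  have hxX1 : X1 ≤ x := ((le_max_right _ _).trans (le_max_left _ _)).trans hx
  have hHy : 2 * y₀ ≤ H := ((le_max_left _ _).trans (le_max_right _ _)).trans hH
  have hHb : (b.natAbs : ℝ) ≤ ε' * H := by
    have := ((le_max_right _ _).trans (le_max_right (max X0 X1) _)).trans hH
    rw [div_le_iff₀ hε'0] at this
    linarith
  obtain ⟨⟨⟨hchX, hengX⟩, hsumX, hff1, hff2, hff3⟩, hsm, hxb⟩ := hX1 x hxX1
  obtain ⟨ps, S, hps, hS, hBV⟩ := hX0 x hxX0
  have hx0 : 0 < x := by linarith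
  have hH0 : 0 < H := by linarith
  rw [f_eq] at hHc
  have hHc0 : H ≤ c₀ * Pool.Agent.H256R2.SC.ff x :=
    hHc.trans (mul_le_mul_of_nonneg_right (min_le_left _ _) hff2)
  have hHc1 : H ≤ Pool.Agent.H256R2.SC.ff x := by
    have := hHc.trans (mul_le_mul_of_nonneg_right (min_le_right _ _) hff2)
    linarith
  obtain ⟨R, hR⟩ : ∃ R : ℝ, R = if (2 : ℤ) ∣ b then 1 else 2 := ⟨_, rfl⟩
  have hR1 : 1 ≤ R := by rw [hR]; split_ifs <;> norm_num
  have hR2 : R ≤ 2 := by rw [hR]; split_ifs <;> norm_num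
  have hR0 : 0 < R := by linarith
  have hTH : H / R ≤ H := by
    rw [div_le_iff₀ hR0]
    exact le_mul_of_one_le_right hH0.le hR1
  obtain ⟨k₁, k₂, hk₁, hk₂, hkk, hk₁w, hk₂w, hkT1, hkT2⟩ := hchX ps S hS (H / R)
    (by
      rw [le_div_iff₀ hR0]
      have := mul_le_mul_of_nonneg_left hR2 hy₀.le
      linarith only [this, hHy])
    (hTH.trans hHc0)
  have hk₁p := (mem_PW.1 hk₁).2.1
  have hk₂p := (mem_PW.1 hk₂).2.1
  -- the moduli
  have hfin : (Moduli b ε x H).Finite := by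
    apply (Set.finite_Iic ⌊x⌋₊).subset
    intro n hn
    exact Nat.le_floor hn.2.1
  by_contra hcon
  push Not at hcon
  rw [Set.ncard_eq_toFinset_card _ hfin] at hcon
  obtain ⟨N, hNp, hxN, hN3, hNb, hNk, hNj, hNP⟩ := hengX ps S hps hS hBV k₁ k₂ hk₁ hk₂ hkk (by omega) (by omega)
    (hkT2.trans (hTH.trans hHc0)) (hfin.toFinset.image (fun n : ℕ => (((k₁ * k₂ : ℕ) : ℤ) * n + b).toNat))
    (le_trans (by exact_mod_cast card_image_le) hcon.le)
  obtain ⟨k, hk⟩ : ∃ k : ℕ, k = k₁ * k₂ := ⟨_, rfl⟩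
  rw [← hk] at hNk hNj hNb
  have hkr : (k : ℝ) = k₁ * k₂ := by rw [hk]; push_cast; ring
  rw [← hkr] at hkT1 hkT2
  have hk0 : 0 < k := by rw [hk]; exact Nat.mul_pos hk₁p.pos hk₂p.pos
  have hk4 : 4 ≤ k := by
    rw [hk]
    calc 4 = 2 * 2 := rfl
      _ ≤ k₁ * k₂ := Nat.mul_le_mul hk₁p.two_le hk₂p.two_le
  obtain ⟨m, hm⟩ := hNk
  have hbabs : |(b : ℝ)| = b.natAbs := by rw [Nat.cast_natAbs, Int.cast_abs]
  have hb1 := (abs_le.1 hbabs.le).1
  have hb2 := (abs_le.1 hbabs.le).2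
  have hmr : (N : ℝ) - b = k * m := by exact_mod_cast hm
  have hk0r : (0 : ℝ) < k := by exact_mod_cast hk0
  have hm0 : 0 < m := by
    have h1 : (0 : ℝ) < k * m := by rw [← hmr]; linarith
    have h2 : (0 : ℝ) < m := (pos_iff_pos_of_mul_pos h1).1 hk0r
    exact_mod_cast h2
  obtain ⟨n, rfl⟩ : ∃ n : ℕ, m = n := ⟨m.toNat, (Int.toNat_of_nonneg hm0.le).symm⟩
  have hn0 : 0 < n := by exact_mod_cast hm0
  have hn0r : (0 : ℝ) < n := by exact_mod_cast hn0
  rw [Int.cast_natCast] at hmr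
  -- the size of `n`
  have hnx : (n : ℝ) ≤ x := by
    have h1 : (4 : ℝ) ≤ k := by exact_mod_cast hk4
    have h2 : 4 * (n : ℝ) ≤ k * n := mul_le_mul_of_nonneg_right h1 hn0r.le
    linarith
  have hklog : 2 * (k : ℝ) ≤ Real.log x ^ 2 := by
    have : (k : ℝ) ≤ Pool.Agent.H256R2.SC.ff x := hkT2.trans (hTH.trans hHc1)
    linarith
  have hlog0 : 0 < Real.log x := Real.log_pos (by linarith)
  have hxn : x / Real.log x ^ 2 ≤ n := by
    rw [div_le_iff₀ (by positivity)]
    have h1 : x / 2 ≤ k * n := by linarith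
    have h2 : 2 * (k : ℝ) * n ≤ Real.log x ^ 2 * n := mul_le_mul_of_nonneg_right hklog hn0r.le
    linarith
  have hnbig : x ^ (1 / 1000 : ℝ) + 2 * b.natAbs < n := lt_of_lt_of_le hsm hxn
  -- coprimality
  have hNgt : (b.natAbs : ℝ) < N := by linarith
  have hNgt' : b.natAbs < N := by exact_mod_cast hNgt
  have hNb' : ∀ p : ℕ, p.Prime → p ∣ n → ¬ (p : ℤ) ∣ b := by
    intro p hp hpn hpb
    have h1 : (p : ℤ) ∣ N := by
      have h2 : (N : ℤ) = k * n + b := by linarith
      rw [h2]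
      exact dvd_add ((Int.natCast_dvd_natCast.2 hpn).mul_left _) hpb
    have h3 := (Nat.prime_dvd_prime_iff_eq hp hNp).1 (Int.natCast_dvd_natCast.1 h1)
    have h4 := Nat.le_of_dvd (Int.natAbs_pos.2 hb) (Int.natCast_dvd.1 hpb)
    omega
  have hcop : IsCoprime (n : ℤ) b := by
    rw [Int.isCoprime_iff_nat_coprime, Int.natAbs_natCast]
    apply Nat.Coprime.symm
    apply Nat.coprime_of_dvd
    intro p hp h1 h2
    exact hNb' p hp h2 (Int.natCast_dvd.2 h1)
  -- parity
  have hNodd : ¬ 2 ∣ N := by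
    intro h
    have h1 := (Nat.prime_dvd_prime_iff_eq Nat.prime_two hNp).1 h
    rw [← h1] at hxN
    push_cast at hxN
    linarith
  have hkodd : ¬ 2 ∣ k := by
    intro h
    rw [hk, Nat.prime_two.dvd_mul, Nat.prime_dvd_prime_iff_eq Nat.prime_two hk₁p,
      Nat.prime_dvd_prime_iff_eq Nat.prime_two hk₂p] at h
    omega
  have hpar : (2 ∣ n) ↔ ¬ (2 : ℤ) ∣ b := by
    constructor
    · intro h h2
      exact hNb' 2 Nat.prime_two h (by exact_mod_cast h2)
    · intro h
      have h1 : (2 : ℤ) ∣ (k : ℤ) * n := by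
        rw [← hm]
        omega
      have h2 : 2 ∣ k * n := by exact_mod_cast h1
      exact (Nat.prime_two.dvd_mul.1 h2).resolve_left hkodd
  have hRn : (if 2 ∣ n then (2 : ℝ) else 1) = R := by
    rw [hR]
    by_cases h : (2 : ℤ) ∣ b
    · rw [if_pos h, if_neg (fun h' => hpar.1 h' h)]
    · rw [if_neg h, if_pos (hpar.2 h)]
  -- Euler's function
  have hsum := hsumX ps S hps hS k₁ k₂ hk₁w hk₂w n hn0.ne' hnx (by
    intro p hp hp2 hpn hpPW
    by_contra hne
    push Not at hne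
    refine hNP p hpPW ?_ hne.1 hne.2 ?_
    · intro hd
      rcases hp.dvd_mul.1 hd with h1 | h1
      · exact hp2 ((Nat.prime_dvd_prime_iff_eq hp Nat.prime_two).1 h1)
      · exact hNb' p hp hpn (Int.natCast_dvd.2 h1)
    · rw [hm]
      exact (Int.natCast_dvd_natCast.2 hpn).mul_left _)
  obtain ⟨hφ1, hφ2⟩ := ratio_bounds n hn0.ne' _ hsum
  rw [hRn] at hφ1 hφ2
  have hφ0 : (0 : ℝ) < n.totient := by exact_mod_cast Nat.totient_pos.2 hn0
  have hφ2' : (n : ℝ) ≤ R * ((1 + ε') * n.totient) := by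
    refine hφ2.trans ?_
    gcongr
  have hφone : (1 : ℝ) ≤ n.totient := by exact_mod_cast Nat.totient_pos.2 hn0
  have hHφ : 0 < H * n.totient := by positivity
  -- `N` is close to `H φ(n)`
  have hT0 : 0 < H / R := by positivity
  have hup : (N : ℝ) - b ≤ (1 + ε') * (H * n.totient) := by
    rw [hmr]
    calc (k : ℝ) * n ≤ (H / R) * (R * ((1 + ε') * n.totient)) := by gcongr
      _ = (1 + ε') * (H * n.totient) := by field_simp
  have hlo : (1 - ε') * (H * n.totient) ≤ (N : ℝ) - b := by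
    rw [hmr]
    calc (1 - ε') * (H * n.totient) = ((1 - ε') * (H / R)) * (R * n.totient) := by field_simp
      _ ≤ k * n := by
          apply mul_le_mul hkT1.le hφ1 (by positivity) hk0r.le
  have hbs : (b.natAbs : ℝ) ≤ ε' * (H * n.totient) := by
    refine hHb.trans ?_
    apply mul_le_mul_of_nonneg_left _ hε'0.le
    exact le_mul_of_one_le_right hH0.le hφone
  have hclose : |(N : ℝ) - H * n.totient| ≤ ε * (H * n.totient) := by
    have h1 : 2 * ε' * (H * n.totient) ≤ ε * (H * n.totient) := mul_le_mul_of_nonneg_right hε'2 hHφ.le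
    have h2 : (1 + ε') * (H * n.totient) = H * n.totient + ε' * (H * n.totient) := by ring
    have h3 : (1 - ε') * (H * n.totient) = H * n.totient - ε' * (H * n.totient) := by ring
    have h4 : 2 * ε' * (H * n.totient) = ε' * (H * n.totient) + ε' * (H * n.totient) := by ring
    rw [h2] at hup
    rw [h3] at hlo
    rw [h4] at h1
    rw [abs_le]
    constructor
    · linarith only [hlo, hbs, h1, hb1]
    · linarith only [hup, hbs, h1, hb2]
  -- `N` is the least prime
  have hleast : LeastPrime n b N := by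
    refine ⟨⟨hNp, ?_, ?_⟩, ?_⟩
    · rw [Int.abs_eq_natAbs]
      exact_mod_cast hNgt'
    · rw [Int.modEq_comm, Int.modEq_iff_dvd, hm]
      exact dvd_mul_left _ _
    · rintro q ⟨hq, hqb, hqn⟩
      rw [Int.modEq_comm, Int.modEq_iff_dvd] at hqn
      obtain ⟨j, hj⟩ := hqn
      have hj0 : 0 < j := by
        have h1 : 0 < (n : ℤ) * j := by
          rw [← hj]
          have := le_abs_self b
          linarith
        have h3 : (0 : ℤ) ≤ n := by positivity
        exact pos_of_mul_pos_right h1 h3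
      obtain ⟨j, rfl⟩ : ∃ i : ℕ, j = i := ⟨j.toNat, (Int.toNat_of_nonneg hj0.le).symm⟩
      rcases Nat.lt_or_ge j k with hjk | hjk
      · exfalso
        obtain ⟨r, hr, hrx, hrk, hrd⟩ := hNj j (by exact_mod_cast hj0) hjk
        have h1 : (j : ℤ) * N + b * (k - j) = k * q := by
          have h2 : (N : ℤ) = k * n + b := by linarith
          have h3 : (q : ℤ) = n * j + b := by linarith
          rw [h2, h3]
          ring
        rw [h1] at hrd
        have h2 : r ∣ k * q := by exact_mod_cast hrd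
        have h3 := (hr.dvd_mul.1 h2).resolve_left hrk
        have h4 := (Nat.prime_dvd_prime_iff_eq hr hq).1 h3
        have h5 : (q : ℝ) = n * j + b := by
          have : (q : ℤ) = n * j + b := by linarith
          exact_mod_cast this
        have h6 : (n : ℝ) ≤ n * j := by
          have : (1 : ℝ) ≤ j := by exact_mod_cast hj0
          exact le_mul_of_one_le_right hn0r.le this
        rw [h4] at hrx
        linarith
      · have h1 : (N : ℤ) ≤ q := by
          have h2 : (N : ℤ) = n * k + b := by linarith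
          have h3 : (q : ℤ) = n * j + b := by linarith
          rw [h2, h3]
          have h4 : (k : ℤ) ≤ j := by exact_mod_cast hjk
          have h5 : (n : ℤ) * k ≤ n * j := mul_le_mul_of_nonneg_left h4 (by positivity)
          linarith
        exact_mod_cast h1
  apply hNb
  rw [mem_image]
  refine ⟨n, ?_, ?_⟩
  · rw [Set.Finite.mem_toFinset]
    exact ⟨hxn, hnx, hcop, N, hleast, hclose⟩
  · have h2 : (k : ℤ) * n + b = N := by linarith
    rw [h2, Int.toNat_natCast]

theorem log_sq_le {t : ℝ} (ht : 1 ≤ t) : (Real.log t) ^ 2 ≤ 4 * t := by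
  have hs : 0 < Real.sqrt t := Real.sqrt_pos.2 (by linarith)
  have h1 := Real.log_le_sub_one_of_pos hs
  rw [Real.log_sqrt (by linarith)] at h1
  have h2 : Real.sqrt t ^ 2 = t := Real.sq_sqrt (by linarith)
  have h3 := Real.log_nonneg ht
  nlinarith

theorem ev_f (c B : ℝ) (hc : 0 < c) : ∀ᶠ x : ℝ in atTop, B * Real.log x ≤ c * f x := by
  have t1 := Real.tendsto_log_atTop
  have t2 : Tendsto (fun x : ℝ => Real.log (Real.log x)) atTop atTop := t1.comp t1
  have t3 : Tendsto (fun x : ℝ => Real.log (Real.log (Real.log x))) atTop atTop := t1.comp t2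
  have t4 : Tendsto (fun x : ℝ => Real.log (Real.log (Real.log (Real.log x)))) atTop atTop := t1.comp t3
  filter_upwards [t1.eventually_ge_atTop 1, t2.eventually_ge_atTop (4 * |B| / c + 1), t3.eventually_ge_atTop 1,
    t4.eventually_ge_atTop 1] with x h1 h2 h3 h4
  unfold f
  set l1 := Real.log x with hl1
  set l2 := Real.log l1 with hl2
  set l3 := Real.log l2 with hl3
  set l4 := Real.log l3 with hl4
  have p2 : 0 < l2 := by
    have : 0 ≤ 4 * |B| / c := by positivity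
    linarith
  have p21 : 1 ≤ l2 := by
    have : 0 ≤ 4 * |B| / c := by positivity
    linarith
  have q1 : l3 ^ 2 ≤ 4 * l2 := log_sq_le p21
  have hB : |B| ≤ c * (l2 / 4) := by
    have : 4 * |B| / c ≤ l2 := by linarith
    rw [div_le_iff₀ hc] at this
    linarith
  have e1 : l1 * l2 ^ 2 * l4 / (4 * l2) ≤ l1 * l2 ^ 2 * l4 / l3 ^ 2 :=
    div_le_div_of_nonneg_left (by positivity) (by positivity) q1
  have e2 : l1 * l2 ^ 2 * l4 / (4 * l2) = l1 * (l2 / 4) * l4 := by
    field_simp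
  rw [e2] at e1
  have e3 : l1 * (l2 / 4) * 1 ≤ l1 * (l2 / 4) * l4 := by gcongr
  calc B * l1 ≤ |B| * l1 := by gcongr; exact le_abs_self B
    _ ≤ c * (l2 / 4) * l1 := by gcongr
    _ = c * (l1 * (l2 / 4) * 1) := by ring
    _ ≤ c * (l1 * l2 ^ 2 * l4 / l3 ^ 2) := by
        apply mul_le_mul_of_nonneg_left _ hc.le
        linarith

theorem limit_points (b : ℤ) (hb : b ≠ 0) (v : ℝ) (hv : 0 ≤ v) (δ : ℝ) (hδ : 0 < δ) (n₀ : ℕ) :
    ∃ n : ℕ, n₀ < n ∧ IsCoprime (n : ℤ) b ∧
      ∃ p : ℕ, LeastPrime n b p ∧ |(p : ℝ) / (n.totient * Real.log n) - v| < δ := by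
  obtain ⟨c, hc, h⟩ := sizes b hb
  obtain ⟨ε, hεd⟩ : ∃ ε : ℝ, ε = δ / (8 * (v + δ + 1)) := ⟨_, rfl⟩
  have hε : 0 < ε := by rw [hεd]; positivity
  have hε1 : ε ≤ 1 / 8 := by
    rw [hεd, div_le_div_iff₀ (by positivity) (by norm_num)]
    linarith
  have hεv : ε * (v + δ / 4) ≤ δ / 8 := by
    rw [hεd, div_mul_eq_mul_div, div_le_div_iff₀ (by positivity) (by norm_num)]
    nlinarith
  obtain ⟨x₀, hx₀⟩ := h ε hε
  have t1 := Real.tendsto_log_atTop
  have hlogt : ∀ᶠ t : ℝ in atTop, 4 * Real.log t ≤ ε * t := by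
    have h := Real.isLittleO_log_id_atTop.def (show (0 : ℝ) < ε / 4 by positivity)
    filter_upwards [h, eventually_ge_atTop 1] with y h1 h2
    simp only [id] at h1
    rw [Real.norm_of_nonneg (Real.log_nonneg h2), Real.norm_of_nonneg (by linarith)] at h1
    linarith
  obtain ⟨x, ⟨⟨e1, e2⟩, e3, e4⟩, e5, e6⟩ := (((eventually_ge_atTop x₀).and (ev_f c (v + δ / 4) hc)).and
    ((t1.eventually_ge_atTop (|x₀| / (v + δ / 4))).and (t1.eventually hlogt))).and
    ((ev_small n₀ (Nat.cast_nonneg _)).and (eventually_ge_atTop (Real.exp 1))) |>.exists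
  have hvδ : 0 < v + δ / 4 := by linarith
  have hx0 : 0 < x := (Real.exp_pos 1).trans_le e6
  have hL1 : 1 ≤ Real.log x := by
    rw [Real.le_log_iff_exp_le hx0]
    exact e6
  have hcount := hx₀ x ((v + δ / 4) * Real.log x) e1 (by
    rw [div_le_iff₀ hvδ] at e3
    have := le_abs_self x₀
    linarith) e2
  have hpos : 0 < x ^ (9 / 10 : ℝ) := Real.rpow_pos_of_pos hx0 _
  have hne : (Moduli b ε x ((v + δ / 4) * Real.log x)).ncard ≠ 0 := by
    intro h0
    rw [h0] at hcount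
    push_cast at hcount
    linarith
  obtain ⟨n, hn1, hn2, hn3, p, hp, hpc⟩ := Set.nonempty_of_ncard_ne_zero hne
  have hnn₀ : (n₀ : ℝ) < n := by
    have : 0 < x ^ (1 / 1000 : ℝ) := Real.rpow_pos_of_pos hx0 _
    linarith
  refine ⟨n, by exact_mod_cast hnn₀, hn3, p, hp, ?_⟩
  have hn0 : (0 : ℝ) < n := lt_of_le_of_lt (Nat.cast_nonneg n₀) hnn₀
  have hn0' : 0 < n := by exact_mod_cast hn0
  have hφ0 : (0 : ℝ) < n.totient := by exact_mod_cast Nat.totient_pos.2 hn0'
  set L := Real.log x with hL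
  have hlogn1 : Real.log n ≤ L := Real.log_le_log hn0 hn2
  have hlogn2 : L - 2 * Real.log L ≤ Real.log n := by
    have h1 := Real.log_le_log (by positivity) hn1
    rw [Real.log_div hx0.ne' (by positivity), Real.log_pow] at h1
    push_cast at h1
    exact h1
  have hll : 0 ≤ Real.log L := Real.log_nonneg hL1
  have hlogn0 : 0 < Real.log n := by
    nlinarith
  have hLn : L ≤ (1 + ε) * Real.log n := by
    have h1 : (1 + ε) * (L - 2 * Real.log L) ≤ (1 + ε) * Real.log n :=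
      mul_le_mul_of_nonneg_left hlogn2 (by linarith)
    nlinarith
  have hD : 0 < (n.totient : ℝ) * Real.log n := by positivity
  rw [abs_le] at hpc
  obtain ⟨hp1, hp2⟩ := hpc
  set V := v + δ / 4 with hV
  rw [abs_lt]
  constructor
  · -- lower bound
    have h1 : (1 - ε) * V * (n.totient * Real.log n) ≤ p := by
      have h2 : (1 - ε) * V * (n.totient * Real.log n) ≤ (1 - ε) * V * (n.totient * L) := by
        apply mul_le_mul_of_nonneg_left _ (mul_nonneg (by linarith) hvδ.le)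
        exact mul_le_mul_of_nonneg_left hlogn1 hφ0.le
      have h3 : (1 - ε) * V * (n.totient * L) = V * L * n.totient - ε * (V * L * n.totient) := by ring
      linarith
    have h2 : (1 - ε) * V ≤ p / (n.totient * Real.log n) := by
      rw [le_div_iff₀ hD]
      exact h1
    have h3 : (1 - ε) * V = V - ε * V := by ring
    linarith
  · have h1 : (p : ℝ) ≤ (1 + ε) * V * (n.totient * ((1 + ε) * Real.log n)) := by
      have h2 : (1 + ε) * V * (n.totient * L) ≤ (1 + ε) * V * (n.totient * ((1 + ε) * Real.log n)) := by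
        apply mul_le_mul_of_nonneg_left _ (by positivity)
        exact mul_le_mul_of_nonneg_left hLn hφ0.le
      have h3 : (1 + ε) * V * (n.totient * L) = V * L * n.totient + ε * (V * L * n.totient) := by ring
      linarith
    have h2 : (p : ℝ) / (n.totient * Real.log n) ≤ (1 + ε) * (1 + ε) * V := by
      rw [div_le_iff₀ hD]
      refine h1.trans (le_of_eq ?_)
      ring
    have h3 : (1 + ε) * (1 + ε) * V = V + (2 + ε) * (ε * V) := by ring
    have h4 : (2 + ε) * (ε * V) ≤ 3 * (δ / 8) := by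
      apply mul_le_mul (by linarith) hεv (by positivity) (by norm_num)
    linarith

/-- **The least prime in a fixed residue class.** (1) Every size up to the order `φ(n) f(n)` of the largest known
values occurs: for every real `H` between a constant and `c f(x)` there are at least `x^(9/10)` moduli
`n ∈ [x / (log x)², x]` coprime to `b` with `(1 - ε) φ(n) H ≤ p(n, b) ≤ (1 + ε) φ(n) H`. (2) Every real number
`v ≥ 0` is a limit point of `p(n, b) / (φ(n) log n)`. -/
theorem result (b : ℤ) (hb : b ≠ 0) :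
    (∃ c : ℝ, 0 < c ∧ ∀ ε : ℝ, 0 < ε → ∃ x₀ : ℝ, ∀ x H : ℝ, x₀ ≤ x → x₀ ≤ H → H ≤ c * f x →
      x ^ (9 / 10 : ℝ) ≤ ((Moduli b ε x H).ncard : ℝ)) ∧
    ∀ v : ℝ, 0 ≤ v → ∀ δ : ℝ, 0 < δ → ∀ n₀ : ℕ, ∃ n : ℕ, n₀ < n ∧ IsCoprime (n : ℤ) b ∧
      ∃ p : ℕ, LeastPrime n b p ∧ |(p : ℝ) / (n.totient * Real.log n) - v| < δ := by
  exact ⟨sizes b hb, limit_points b hb⟩

end Pool.Agent.Results.MP_5b0a7e_nt.FixedResidueAllSizes
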