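import Pool.Agent.Q120.GM.PD5
import Pool.Agent.Q120.GM.Exists

/-!
# The limit law of the largest least element over the residue classes in the sieved models of the primes

`Q` is the level: the random set contains each `n` coprime to `Q` independently with
probability `min(1, (Q/φ(Q))/log n)`, and no other `n`. For `Q = 1` this is the model of Cramér.

For a modulus `d` let `p(d)` be the maximum, over the classes `a` modulo `d` with `gcd(a, d, Q) = 1` (all other classes
are almost surely empty), of the least element of the random set in the class. With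
`L = log d` and `φ_Q(d)` the number of these classes,
`(p(d)/(φ_Q(d) L)) - (L + 2 log L + 2 log(φ_Q(d)/d) - 1 - Q/(2φ(Q)))` converges in distribution to the Gumbel law.
-/

set_option autoImplicit false

namespace Pool.Agent.Results.MP_5b0a7e_nt.GumbelLawForClasses

open Finset MeasureTheory Filter Pool.Agent.Q120.GM
open scoped Topology

/-- The classes `a < d` with `gcd(a, gcd(d, Q)) = 1`. -/
def classes (Q d : ℕ) : Finset ℕ := (range d).filter (fun a => a.Coprime (Nat.gcd d Q))

/-- `p(d) ≤ t`: all these classes contain an element of `S` which is at most `t`. -/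
def LeastAtMost (S : Set ℕ) (Q d : ℕ) (t : ℝ) : Prop :=
  ∀ a ∈ classes Q d, ∃ n, n ∈ S ∧ n % d = a ∧ (n : ℝ) ≤ t

/-- **The Gumbel law for the largest least element over the residue classes.** -/
theorem result : (∀ Q : ℕ, IsModel (prodMeasure (level Q)) (level Q) (trueSet (ι := ℕ))) ∧
    ∀ (Ω : Type) (_ : MeasurableSpace Ω) (μ : Measure Ω) (_ : IsProbabilityMeasure μ) (A : Ω → Set ℕ) (Q : ℕ),
      1 ≤ Q → IsModel μ (level Q) A → ∀ u : ℝ,
        Tendsto (fun d : ℕ => μ.real {ω | LeastAtMost (A ω) Q d ((classes Q d).card * Real.log d *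
          (Real.log d + 2 * Real.log (Real.log d) + 2 * Real.log ((classes Q d).card / d) - 1 -
            (Q : ℝ) / (2 * Nat.totient Q) + u))}) atTop (𝓝 (Real.exp (-Real.exp (-u)))) := by
  refine ⟨fun Q => isModel (level Q) (level_nonneg Q) (level_le_one Q), ?_⟩
  intro Ω _ μ _ A Q hQ hA u
  refine (pd_law hA hQ u).congr (fun d => ?_)
  congr 1
  ext ω
  constructor
  · intro h a ha
    rw [classes, mem_filter, mem_range] at ha
    exact h a ha.1 ha.2
  · intro h a ha hco
    exact h a (mem_filter.2 ⟨mem_range.2 ha, hco⟩)

end Pool.Agent.Results.MP_5b0a7e_nt.GumbelLawForClasses
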