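import Pool.Agent.Q112.LE.AllCls
import Pool.Agent.Q120.GM.Exists

/-!
# The profile of the least elements of the residue classes of every modulus in the sieved models of the primes

`Q` is the level: the random set `A` contains each `n` coprime to `Q` independently with
probability `min(1, (Q/φ(Q))/log n)`, and no other `n`. For `Q = 1` this is the model of Cramér.
`phi Q d = d ∏_{p ∣ (d, Q)} (1 - 1/p)`, and `p(d, a) = leastIn A a d` is the least element of `A` in the class of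
`a` modulo `d`. The classes of positive density are those with `(a, d, Q) = 1`. For every modulus `d` let a finite
collection `C d` of sets of such classes be given. Almost surely, for every large `d` and uniformly for all sets
`T ∈ C d`:

* (`bulk`) `#{a ∈ T : p(d, a) > u φ_Q(d) log d} = (e^(-u) + o(1)) #T`;
* (`moments`) the mean value of `(p(d, a) / (φ_Q(d) log d))^k` over `T` tends to `k!`;
* (`upper`, `lower`) `#{a ∈ T : p(d, a) > t φ_Q(d) (log d)^2}` is `#T d^(-t + o(1))` if `#T ≥ d^(t + δ)`, and at most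
  `#T d^(-t + δ) + d^δ` in general.
-/

set_option autoImplicit false

namespace Pool.Agent.Results.MP_5b0a7e_nt.ProfileOfTheClasses

open MeasureTheory Filter Pool.Agent.Q120.GM
open scoped Topology Nat

/-- `φ_Q(m) = m ∏_{p ∣ (m, Q)} (1 - 1/p) = m φ(g)/g` with `g = (m, Q)`. -/
noncomputable def phi (Q m : ℕ) : ℝ := (m : ℝ) * ((Nat.totient (Nat.gcd m Q) : ℝ) / (Nat.gcd m Q : ℕ))

/-- `p(d, a)`: the least element of `S` in the class of `a` modulo `d`. -/
noncomputable def leastIn (S : Set ℕ) (a d : ℕ) : ℕ := sInf {n | n ∈ S ∧ n % d = a % d}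

/-- `#{a ∈ T : p(d, a) > y}`. -/
noncomputable def countAbove (S : Set ℕ) (T : Finset ℕ) (d : ℕ) (y : ℝ) : ℝ :=
  (Set.ncard {a : ℕ | a ∈ T ∧ y < leastIn S a d} : ℝ)

/-- The mean value of `(p(d, a) / (φ_Q(d) log d))^k` for `a ∈ T`. -/
noncomputable def moment (S : Set ℕ) (Q : ℕ) (T : Finset ℕ) (d k : ℕ) : ℝ :=
  (∑ a ∈ T, ((leastIn S a d : ℝ) / (phi Q d * Real.log d)) ^ k) / T.card

/-- All sets `T ∈ C d` consist of classes modulo `d` of positive density, given by their residues `a < d`. -/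
def Admissible (Q : ℕ) (C : ℕ → Finset (Finset ℕ)) : Prop :=
  ∀ d, ∀ T ∈ C d, ∀ a ∈ T, a < d ∧ Nat.gcd a (Nat.gcd d Q) = 1

/-- The set of all classes of positive density modulo `d`. -/
def classes (Q d : ℕ) : Finset ℕ := (Finset.range d).filter (fun a => Nat.gcd a (Nat.gcd d Q) = 1)

/-- The bulk law. -/
def BulkLaw (S : Set ℕ) (Q : ℕ) (C : ℕ → Finset (Finset ℕ)) : Prop :=
  ∀ u : ℝ, 0 < u → ∀ ε : ℝ, 0 < ε → ∀ᶠ d : ℕ in atTop, ∀ T ∈ C d,
    |countAbove S T d (u * phi Q d * Real.log d) - Real.exp (-u) * T.card| ≤ ε * T.card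

/-- The law of the moments. -/
def MomentLaw (S : Set ℕ) (Q : ℕ) (C : ℕ → Finset (Finset ℕ)) : Prop :=
  ∀ k : ℕ, ∀ ε : ℝ, 0 < ε → ∀ᶠ d : ℕ in atTop, ∀ T ∈ C d, |moment S Q T d k - (k ! : ℕ)| ≤ ε

/-- The law of the large values. -/
structure LargeValueLaw (S : Set ℕ) (Q : ℕ) (C : ℕ → Finset (Finset ℕ)) : Prop where
  upper : ∀ t : ℝ, 0 < t → ∀ δ : ℝ, 0 < δ → ∀ᶠ d : ℕ in atTop, ∀ T ∈ C d,
    countAbove S T d (t * phi Q d * Real.log d ^ 2) ≤ T.card * (d : ℝ) ^ (-t + δ) + (d : ℝ) ^ δ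
  lower : ∀ t : ℝ, 0 < t → ∀ δ : ℝ, 0 < δ → ∀ᶠ d : ℕ in atTop, ∀ T ∈ C d, (d : ℝ) ^ (t + δ) ≤ T.card →
    T.card * (d : ℝ) ^ (-t - δ) ≤ countAbove S T d (t * phi Q d * Real.log d ^ 2)

/-- **The profile of the classes.** The models exist, and in every model: (0) almost surely for all large `d` every class
of positive density modulo `d` contains an element of `A`; (1) the bulk law holds almost surely for every admissible
`C` with `#T ≥ K (log d + log #(C d))` for `T ∈ C d`, `d` large, every `K`; (2) the law of the moments holds almost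
surely if `#T ≥ (log d)^K (1 + log #(C d))`; (3) the law of the large values holds almost surely if
`log #(C d) ≤ d^δ`, every `δ > 0`; (4) almost surely all three laws hold for the set of all classes of positive
density, for every modulus. -/
theorem result : (∀ Q : ℕ, IsModel (prodMeasure (level Q)) (level Q) (trueSet (ι := ℕ))) ∧
    ∀ (Ω : Type) (_ : MeasurableSpace Ω) (μ : Measure Ω) (_ : IsProbabilityMeasure μ) (A : Ω → Set ℕ) (Q : ℕ),
      1 ≤ Q → IsModel μ (level Q) A →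
      (∀ᵐ ω ∂μ, ∀ᶠ d : ℕ in atTop, ∀ a ∈ classes Q d, ∃ n ∈ A ω, n % d = a % d) ∧
      (∀ C : ℕ → Finset (Finset ℕ), Admissible Q C →
        (∀ K : ℝ, ∀ᶠ d : ℕ in atTop, ∀ T ∈ C d, K * (Real.log d + Real.log (C d).card) ≤ T.card) →
        ∀ᵐ ω ∂μ, BulkLaw (A ω) Q C) ∧
      (∀ C : ℕ → Finset (Finset ℕ), Admissible Q C →
        (∀ K : ℕ, ∀ᶠ d : ℕ in atTop, ∀ T ∈ C d, Real.log d ^ K * (1 + Real.log (C d).card) ≤ T.card) →
        ∀ᵐ ω ∂μ, MomentLaw (A ω) Q C) ∧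
      (∀ C : ℕ → Finset (Finset ℕ), Admissible Q C →
        (∀ δ : ℝ, 0 < δ → ∀ᶠ d : ℕ in atTop, Real.log (C d).card ≤ (d : ℝ) ^ δ) →
        ∀ᵐ ω ∂μ, LargeValueLaw (A ω) Q C) ∧
      (∀ᵐ ω ∂μ, BulkLaw (A ω) Q (fun d => {classes Q d}) ∧ MomentLaw (A ω) Q (fun d => {classes Q d}) ∧
        LargeValueLaw (A ω) Q (fun d => {classes Q d})) := by
  refine ⟨fun Q => isModel (level Q) (level_nonneg Q) (level_le_one Q), ?_⟩
  intro Ω _ μ _ A Q hQ hA
  have hne : ∀ᵐ ω ∂μ, ∀ᶠ d : ℕ in atTop, ∀ a ∈ classes Q d, ∃ n, n ∈ A ω ∧ n % d = a % d := by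
    filter_upwards [Pool.Agent.Q112.LE.none_beyond hA hQ] with ω hω
    filter_upwards [hω] with d hd a ha
    unfold classes at ha
    rw [Finset.mem_filter, Finset.mem_range] at ha
    have h1 := hd a ha.1 ha.2
    unfold Pool.Agent.Q112.LE.Late at h1
    push Not at h1
    obtain ⟨n, h2, h3, -⟩ := h1
    exact ⟨n, h2, h3⟩
  have hmem : ∀ (C : ℕ → Finset (Finset ℕ)), Admissible Q C → ∀ d, ∀ T ∈ C d, ∀ a ∈ T, a ∈ classes Q d := by
    intro C hC d T hT a ha
    unfold classes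
    rw [Finset.mem_filter, Finset.mem_range]
    exact hC d T hT a ha
  have hcount : ∀ (S : Set ℕ) (C : ℕ → Finset (Finset ℕ)), Admissible Q C → ∀ d, ∀ T ∈ C d,
      (∀ a ∈ classes Q d, ∃ n, n ∈ S ∧ n % d = a % d) → ∀ y : ℝ,
      (Set.ncard {a : ℕ | a ∈ T ∧ Pool.Agent.Q112.LE.Late S a d y} : ℝ) = countAbove S T d y := by
    intro S C hC d T hT hd y
    unfold countAbove
    congr 2
    ext a
    constructor
    · rintro ⟨h1, h2⟩
      exact ⟨h1, (Pool.Agent.Q112.LE.late_iff_first (hd a (hmem C hC d T hT a h1)) y).1 h2⟩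
    · rintro ⟨h1, h2⟩
      exact ⟨h1, (Pool.Agent.Q112.LE.late_iff_first (hd a (hmem C hC d T hT a h1)) y).2 h2⟩
  have hb : ∀ C : ℕ → Finset (Finset ℕ), Admissible Q C →
      (∀ K : ℝ, ∀ᶠ d : ℕ in atTop, ∀ T ∈ C d, K * (Real.log d + Real.log (C d).card) ≤ T.card) →
      ∀ᵐ ω ∂μ, BulkLaw (A ω) Q C := by
    intro C hC hl
    filter_upwards [hne, Pool.Agent.Q112.LE.bulk hA hQ (𝒮 := C) ⟨hC, hl⟩] with ω h1 h2 u hu ε hε
    filter_upwards [h1, h2 u hu ε hε] with d h3 h4 T hT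
    rw [← hcount (A ω) C hC d T hT h3]
    exact h4 T hT
  have hm : ∀ C : ℕ → Finset (Finset ℕ), Admissible Q C →
      (∀ K : ℕ, ∀ᶠ d : ℕ in atTop, ∀ T ∈ C d, Real.log d ^ K * (1 + Real.log (C d).card) ≤ T.card) →
      ∀ᵐ ω ∂μ, MomentLaw (A ω) Q C := by
    intro C hC hl
    filter_upwards [Pool.Agent.Q112.LE.moments hA hQ (𝒮 := C) ⟨hC, hl⟩] with ω h2 k ε hε
    filter_upwards [h2 k ε hε] with d h4 T hT
    exact h4 T hT
  have ht : ∀ C : ℕ → Finset (Finset ℕ), Admissible Q C →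
      (∀ δ : ℝ, 0 < δ → ∀ᶠ d : ℕ in atTop, Real.log (C d).card ≤ (d : ℝ) ^ δ) →
      ∀ᵐ ω ∂μ, LargeValueLaw (A ω) Q C := by
    intro C hC hl
    filter_upwards [hne, Pool.Agent.Q112.LE.tail_law hA hQ (𝒮 := C) ⟨hC, hl⟩] with ω h1 h2
    refine ⟨fun t ht0 δ hδ => ?_, fun t ht0 δ hδ => ?_⟩
    · filter_upwards [h1, h2 t ht0 δ hδ] with d h3 h4 T hT
      rw [← hcount (A ω) C hC d T hT h3]
      exact (h4 T hT).1
    · filter_upwards [h1, h2 t ht0 δ hδ] with d h3 h4 T hT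
      rw [← hcount (A ω) C hC d T hT h3]
      exact (h4 T hT).2
  refine ⟨hne, hb, hm, ht, ?_⟩
  have hP := Pool.Agent.Q112.LE.collP_all (Q := Q) hQ
  have hT := Pool.Agent.Q112.LE.collT_all Q
  filter_upwards [hb (fun d => {classes Q d}) hP.coll.ok hP.coll.large, hm (fun d => {classes Q d}) hP.ok hP.large,
    ht (fun d => {classes Q d}) hT.ok hT.few] with ω h1 h2 h3
  exact ⟨h1, h2, h3⟩

end Pool.Agent.Results.MP_5b0a7e_nt.ProfileOfTheClasses
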